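import Mathlib

/-! Odd perfect numbers: local lemmas at one prime. -/

set_option autoImplicit false

namespace Pool.Agent.H76D

/-- primes of `σ (q ^ k)`: the prime power is bounded by a power of the cofactor -/
theorem L3 {p q K c a b μ : ℕ} (hp : p.Prime) (hp2 : p ≠ 2) (hK3 : 3 ≤ K) (hKo : Odd K) (hca : c ≤ 2 * a)
    (hQ : p ^ c ∣ q ^ (2 * K) - 1) (hq : 1 ≤ q) (hc : 1 ≤ c)
    (hg : (p - 1) * μ * q ^ b + 1 = p ^ (2 * a + 1)) (hμo : Odd μ) (hμ : 2 ≤ μ) :
    p ^ c ≤ μ ^ ((K - 1) * (K + 1)) := by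
  have hK : 1 ≤ K := by omega
  have hp3 : 3 ≤ p := by
    have := hp.two_le
    omega
  have hpodd : ¬ 2 ∣ p := fun h => hp2 ((Nat.prime_dvd_prime_iff_eq Nat.prime_two hp).1 h).symm
  set M := (p - 1) * μ with hM
  have hM1 : 1 ≤ M := Nat.mul_pos (by omega) (by omega)
  -- `M ^ (2 K) = 1` modulo `p ^ c`
  have h1 : ((q : ZMod (p ^ c)) ^ (2 * K)) = 1 := by
    have h2 : ((q ^ (2 * K) - 1 : ℕ) : ZMod (p ^ c)) = 0 := (ZMod.natCast_eq_zero_iff _ _).2 hQ
    rw [Nat.cast_sub (Nat.one_le_pow _ _ hq)] at h2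
    push_cast at h2
    exact sub_eq_zero.1 h2
  have h2 : ((M : ZMod (p ^ c)) * (q : ZMod (p ^ c)) ^ b) = -1 := by
    have h3 : ((M * q ^ b + 1 : ℕ) : ZMod (p ^ c)) = 0 := by
      rw [hM, hg]
      exact (ZMod.natCast_eq_zero_iff _ _).2 (pow_dvd_pow p (by omega))
    push_cast at h3
    exact eq_neg_of_add_eq_zero_left h3
  have h4 : ((M : ZMod (p ^ c)) ^ (2 * K)) = 1 := by
    have h5 : ((M : ZMod (p ^ c)) * (q : ZMod (p ^ c)) ^ b) ^ (2 * K) = 1 := by
      rw [h2, pow_mul]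
      simp
    rw [mul_pow, ← pow_mul (q : ZMod (p ^ c)), mul_comm b, pow_mul (q : ZMod (p ^ c)), h1, one_pow,
      mul_one] at h5
    exact h5
  have h6 : (p ^ c : ℕ) ∣ (M ^ K - 1) * (M ^ K + 1) := by
    have hMK : 1 ≤ M ^ K := Nat.one_le_pow _ _ hM1
    have h7 : ((M ^ K - 1) * (M ^ K + 1)) = M ^ (2 * K) - 1 := by
      rw [mul_comm 2 K, pow_mul, sq]
      have := Nat.mul_self_sub_mul_self_eq (M ^ K) 1
      rw [one_mul] at this
      rw [this, mul_comm]
    rw [h7, ← ZMod.natCast_eq_zero_iff, Nat.cast_sub (Nat.one_le_pow _ _ hM1)]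
    push_cast
    rw [h4, sub_self]
  have hMK : 1 ≤ M ^ K := Nat.one_le_pow _ _ hM1
  have hM2 : 2 ≤ M ^ K := by
    have : 2 ≤ M := by
      have : 2 * 2 ≤ (p - 1) * μ := Nat.mul_le_mul (by omega) hμ
      omega
    calc 2 ≤ M := this
      _ = M ^ 1 := (pow_one M).symm
      _ ≤ M ^ K := Nat.pow_le_pow_right hM1 hK
  have h8 : p ^ c ≤ M ^ K + 1 := by
    by_cases h9 : p ∣ M ^ K + 1
    · have h10 : ¬ p ∣ M ^ K - 1 := by
        intro h11
        have h12 : p ∣ (M ^ K + 1) - (M ^ K - 1) := Nat.dvd_sub h9 h11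
        have h13 : (M ^ K + 1) - (M ^ K - 1) = 2 := by omega
        rw [h13] at h12
        exact absurd (Nat.le_of_dvd (by norm_num) h12) (by omega)
      have h14 : Nat.Coprime (p ^ c) (M ^ K - 1) :=
        ((Nat.Prime.coprime_iff_not_dvd hp).2 h10).pow_left _
      exact Nat.le_of_dvd (by omega) (h14.dvd_of_dvd_mul_left h6)
    · have h14 : Nat.Coprime (p ^ c) (M ^ K + 1) :=
        ((Nat.Prime.coprime_iff_not_dvd hp).2 h9).pow_left _
      have := Nat.le_of_dvd (by omega) (h14.dvd_of_dvd_mul_right h6)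
      omega
  -- `p ≤ μ ^ K`
  have hpp : p ∣ p ^ c := dvd_pow_self p (by omega)
  have h15 : p ∣ (μ ^ K - 1) * (μ ^ K + 1) := by
    have hμK : 1 ≤ μ ^ K := Nat.one_le_pow _ _ (by omega)
    have h7 : ((μ ^ K - 1) * (μ ^ K + 1)) = μ ^ (2 * K) - 1 := by
      rw [mul_comm 2 K, pow_mul, sq]
      have := Nat.mul_self_sub_mul_self_eq (μ ^ K) 1
      rw [one_mul] at this
      rw [this, mul_comm]
    rw [h7, ← ZMod.natCast_eq_zero_iff, Nat.cast_sub (Nat.one_le_pow _ _ (by omega))]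
    push_cast
    have h16 : ((M : ZMod p) ^ (2 * K)) = 1 := by
      have h17 : ((M ^ (2 * K) - 1 : ℕ) : ZMod p) = 0 := by
        rw [ZMod.natCast_eq_zero_iff]
        refine hpp.trans ?_
        rw [← ZMod.natCast_eq_zero_iff, Nat.cast_sub (Nat.one_le_pow _ _ hM1)]
        push_cast
        rw [h4, sub_self]
      rw [Nat.cast_sub (Nat.one_le_pow _ _ hM1)] at h17
      push_cast at h17
      exact sub_eq_zero.1 h17
    have h18 : (M : ZMod p) = - (μ : ZMod p) := by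
      rw [hM]
      push_cast
      rw [Nat.cast_sub (by omega)]
      simp
    rw [h18, pow_mul, neg_sq, ← pow_mul] at h16
    rw [h16, sub_self]
  have hμK2 : 2 ≤ μ ^ K := by
    calc 2 ≤ μ := hμ
      _ = μ ^ 1 := (pow_one μ).symm
      _ ≤ μ ^ K := Nat.pow_le_pow_right (by omega) hK
  have h19 : p ≤ μ ^ K := by
    rcases (Nat.Prime.dvd_mul hp).1 h15 with h | h
    · have := Nat.le_of_dvd (by omega) h
      omega
    · have h20 : 2 ∣ μ ^ K + 1 := by
        have : Odd (μ ^ K) := hμo.pow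
        obtain ⟨y, hy⟩ := this
        exact ⟨y + 1, by omega⟩
      have h21 : Nat.Coprime 2 p := (Nat.Prime.coprime_iff_not_dvd Nat.prime_two).2 hpodd
      have h22 := Nat.le_of_dvd (by omega) (h21.mul_dvd_of_dvd_of_dvd h20 h)
      omega
  have h23 : M ^ K + 1 ≤ (p * μ) ^ K := by
    have h24 : M + 1 ≤ p * μ := by
      rw [hM]
      obtain ⟨t, ht⟩ : ∃ t, p = t + 1 := ⟨p - 1, by omega⟩
      subst ht
      simp only [Nat.add_sub_cancel]
      rw [add_mul, one_mul]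
      omega
    have h25 : M ^ K < (M + 1) ^ K := Nat.pow_lt_pow_left (by omega) (by omega)
    calc M ^ K + 1 ≤ (M + 1) ^ K := h25
      _ ≤ (p * μ) ^ K := Nat.pow_le_pow_left h24 K
  have hpμM : M + μ = p * μ := by
    rw [hM]
    obtain ⟨t, ht⟩ : ∃ t, p = t + 1 := ⟨p - 1, by omega⟩
    subst ht
    simp only [Nat.add_sub_cancel]
    rw [add_mul, one_mul]
  rcases Nat.lt_or_ge μ p with hlt | hge
  · -- `p > μ`
    have k1 : ¬ p ∣ M - 1 := by
      intro h
      have h30 : p ∣ (M - 1) + (μ + 1) := by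
        have : (M - 1) + (μ + 1) = p * μ := by omega
        rw [this]
        exact dvd_mul_right _ _
      have h31 : p ∣ μ + 1 := (Nat.dvd_add_right h).1 h30
      have h32 : 2 ∣ μ + 1 := by
        obtain ⟨y, hy⟩ := hμo
        exact ⟨y + 1, by omega⟩
      have h33 : Nat.Coprime 2 p := (Nat.Prime.coprime_iff_not_dvd Nat.prime_two).2 hpodd
      have h34 := Nat.le_of_dvd (by omega) (h33.mul_dvd_of_dvd_of_dvd h32 h31)
      omega
    have k2 : ¬ p ∣ M + 1 := by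
      intro h
      have h30 : p ∣ (M + 1) + (μ - 1) := by
        have : (M + 1) + (μ - 1) = p * μ := by omega
        rw [this]
        exact dvd_mul_right _ _
      have h31 : p ∣ μ - 1 := (Nat.dvd_add_right h).1 h30
      have h32 := Nat.le_of_dvd (by omega) h31
      omega
    have hK1 : (M + 1) ^ K = (M + 1) * (M + 1) ^ (K - 1) := by
      rw [← pow_succ']
      congr 1
      omega
    have k3 : p ^ c ≤ (M + 1) ^ (K - 1) := by
      by_cases h9 : p ∣ M ^ K + 1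
      · have h10 : ¬ p ∣ M ^ K - 1 := by
          intro h11
          have h12 : p ∣ (M ^ K + 1) - (M ^ K - 1) := Nat.dvd_sub h9 h11
          have h13 : (M ^ K + 1) - (M ^ K - 1) = 2 := by omega
          rw [h13] at h12
          exact absurd (Nat.le_of_dvd (by norm_num) h12) (by omega)
        have h14 : Nat.Coprime (p ^ c) (M ^ K - 1) :=
          ((Nat.Prime.coprime_iff_not_dvd hp).2 h10).pow_left _
        have h15 : p ^ c ∣ M ^ K + 1 := h14.dvd_of_dvd_mul_left h6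
        obtain ⟨Q, hQ'⟩ : M + 1 ∣ M ^ K + 1 := by
          have := Odd.nat_add_dvd_pow_add_pow M 1 hKo
          rwa [one_pow] at this
        have h16 : Nat.Coprime (p ^ c) (M + 1) :=
          ((Nat.Prime.coprime_iff_not_dvd hp).2 k2).pow_left _
        rw [hQ'] at h15
        have h17 : p ^ c ∣ Q := h16.dvd_of_dvd_mul_left h15
        have hQpos : 0 < Q := by
          rcases Nat.eq_zero_or_pos Q with h | h
          · rw [h, mul_zero] at hQ'
            omega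
          · exact h
        have h18 : (M + 1) * Q ≤ (M + 1) * (M + 1) ^ (K - 1) := by
          rw [← hQ', ← hK1]
          have h25 : M ^ K < (M + 1) ^ K := Nat.pow_lt_pow_left (by omega) (by omega)
          exact h25
        exact (Nat.le_of_dvd hQpos h17).trans (Nat.le_of_mul_le_mul_left h18 (by omega))
      · have h14 : Nat.Coprime (p ^ c) (M ^ K + 1) :=
          ((Nat.Prime.coprime_iff_not_dvd hp).2 h9).pow_left _
        have h15 : p ^ c ∣ M ^ K - 1 := h14.dvd_of_dvd_mul_right h6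
        obtain ⟨x, hx⟩ : ∃ x, M = x + 1 := ⟨M - 1, by omega⟩
        have h16 : (∑ i ∈ Finset.range K, (x + 1) ^ i) * x + 1 = (x + 1) ^ K := geom_sum_mul_add x K
        have h17 : M ^ K - 1 = x * ∑ i ∈ Finset.range K, (x + 1) ^ i := by
          rw [hx, ← h16, mul_comm]
          omega
        have h18 : Nat.Coprime (p ^ c) x := by
          refine Nat.Coprime.pow_left _ ((Nat.Prime.coprime_iff_not_dvd hp).2 ?_)
          have : M - 1 = x := by omega
          rw [← this]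
          exact k1
        rw [h17] at h15
        have h19 : p ^ c ∣ ∑ i ∈ Finset.range K, (x + 1) ^ i := h18.dvd_of_dvd_mul_left h15
        have h20 : ∀ n : ℕ, ∑ i ∈ Finset.range (n + 1), (x + 1) ^ i ≤ (x + 2) ^ n := by
          intro n
          induction n with
          | zero => simp
          | succ n ih =>
            rw [Finset.sum_range_succ]
            have h21 : (x + 1) ^ (n + 1) ≤ (x + 1) * (x + 2) ^ n := by
              rw [pow_succ']
              exact Nat.mul_le_mul_left _ (Nat.pow_le_pow_left (by omega) n)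
            have h22 : (x + 2) ^ (n + 1) = (x + 2) ^ n + (x + 1) * (x + 2) ^ n := by ring
            omega
        have h21 := h20 (K - 1)
        have h22 : K - 1 + 1 = K := by omega
        rw [h22] at h21
        have hpos : 0 < ∑ i ∈ Finset.range K, (x + 1) ^ i :=
          Finset.sum_pos (fun i _ => by positivity) ⟨0, Finset.mem_range.2 (by omega)⟩
        rw [hx]
        exact (Nat.le_of_dvd hpos h19).trans h21
    calc p ^ c ≤ (M + 1) ^ (K - 1) := k3
      _ ≤ (p * μ) ^ (K - 1) := Nat.pow_le_pow_left (by omega) _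
      _ ≤ (μ ^ K * μ) ^ (K - 1) := Nat.pow_le_pow_left (Nat.mul_le_mul_right _ h19) _
      _ = μ ^ ((K - 1) * (K + 1)) := by rw [← pow_succ, ← pow_mul, mul_comm]
  · calc p ^ c ≤ M ^ K + 1 := h8
      _ ≤ (p * μ) ^ K := h23
      _ ≤ (μ * μ) ^ K := Nat.pow_le_pow_left (Nat.mul_le_mul_right _ hge) K
      _ = μ ^ (2 * K) := by rw [← sq, ← pow_mul]
      _ ≤ μ ^ ((K - 1) * (K + 1)) := by
        refine Nat.pow_le_pow_right (by omega) ?_
        obtain ⟨s, hs⟩ : ∃ s, K = s + 3 := ⟨K - 3, by omega⟩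
        subst hs
        have : s + 3 - 1 = s + 2 := by omega
        rw [this]
        nlinarith

/-- primes of `q + 1` with an odd power of `q` -/
theorem L2 {p q u a b μ : ℕ} (hp : p.Prime) (hp2 : p ≠ 2) (hu : u ≤ 2 * a) (hP : p ^ u ∣ q + 1)
    (hg : (p - 1) * μ * q ^ b + 1 = p ^ (2 * a + 1)) (hb : Odd b) (hu1 : 1 ≤ u) (hμ : 1 ≤ μ) :
    p ^ u ≤ 2 * μ := by
  have hp3 : 3 ≤ p := by
    have := hp.two_le
    omega
  obtain ⟨t, ht⟩ : ∃ t, p = t + 1 := ⟨p - 1, by omega⟩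
  have htp : p - 1 = t := by omega
  have h1 : ((q : ZMod (p ^ u))) = -1 := by
    have h3 : ((q + 1 : ℕ) : ZMod (p ^ u)) = 0 := (ZMod.natCast_eq_zero_iff _ _).2 hP
    push_cast at h3
    exact eq_neg_of_add_eq_zero_left h3
  have h2 : (((t * μ : ℕ)) : ZMod (p ^ u)) = 1 := by
    have h3 : (((p - 1) * μ * q ^ b + 1 : ℕ) : ZMod (p ^ u)) = 0 := by
      rw [hg]
      exact (ZMod.natCast_eq_zero_iff _ _).2 (pow_dvd_pow p (by omega))
    rw [htp] at h3
    push_cast at h3 ⊢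
    rw [h1, hb.neg_one_pow] at h3
    linear_combination -h3
  have htμ : 1 ≤ t * μ := Nat.mul_pos (by omega) hμ
  have h3 : p ^ u ∣ t * μ - 1 := by
    rw [← ZMod.natCast_eq_zero_iff, Nat.cast_sub htμ, h2]
    simp
  obtain ⟨j, hj⟩ := h3
  have hj' : t * μ = 1 + p ^ u * j := by omega
  have hPt : t ∣ p ^ u - 1 := by
    have h2 := Nat.sub_dvd_pow_sub_pow p 1 u
    rw [one_pow, htp] at h2
    exact h2
  have hP1 : 1 ≤ p ^ u := Nat.one_le_pow _ _ (by omega)
  obtain ⟨w, hw⟩ := hPt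
  have hPw : p ^ u = t * w + 1 := by omega
  have h4 : t ∣ 1 + j := by
    have h5 : t ∣ t * (w * j) + (1 + j) := by
      have h6 : t * (w * j) + (1 + j) = t * μ := by
        rw [hj', hPw]
        ring
      rw [h6]
      exact dvd_mul_right _ _
    exact (Nat.dvd_add_right (dvd_mul_right _ _)).1 h5
  have h5 : t ≤ 1 + j := Nat.le_of_dvd (by omega) h4
  -- `2 t μ ≥ 2 + 2 P (t - 1) ≥ P t`
  have h6 : p ^ u * t ≤ 2 * μ * t := by
    have h7 : p ^ u * (t - 1) ≤ p ^ u * j := Nat.mul_le_mul_left _ (by omega)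
    obtain ⟨s, hs⟩ : ∃ s, t = s + 2 := ⟨t - 2, by omega⟩
    subst hs
    have h8 : s + 2 - 1 = s + 1 := by omega
    rw [h8] at h7
    nlinarith
  exact Nat.le_of_mul_le_mul_right h6 (by omega)

/-- exceptional primes of `q + 1` (an even power of `q`) -/
theorem X2 {p q u a b μ K m t c : ℕ} (hp : p.Prime) (hp2 : p ≠ 2) (hq5 : 5 ≤ q) (hP : p ^ u ∣ q + 1)
    (hu1 : 1 ≤ u) (hPq : 2 * p ^ u ≤ q + 1) (ha : u ≤ 2 * a)
    (hg : (p - 1) * μ * q ^ b + 1 = p ^ (2 * a + 1)) (hb : Even b) (hb2 : 2 ≤ b) (hμ : 1 ≤ μ)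
    (hct : c + t = 2 * a) (hc : p ^ c ≤ p ^ u * K) (hm : μ * p ^ t ≤ m) :
    4 * q ^ 3 ≤ 9 * K ^ 2 * m ^ 2 := by
  have hp3 : 3 ≤ p := by
    have := hp.two_le
    omega
  set B := p ^ (2 * a) with hB
  -- `2 μ q ^ 2 ≤ 3 B`
  have h1 : 2 * (μ * q ^ 2) ≤ 3 * B := by
    have h2 : q ^ 2 ≤ q ^ b := Nat.pow_le_pow_right (by omega) hb2
    obtain ⟨s, hs⟩ : ∃ s, p = s + 3 := ⟨p - 3, by omega⟩
    have h3 : (s + 2) * (μ * q ^ 2) ≤ (s + 3) * B := by
      have h4 : p ^ (2 * a + 1) = p * B := by rw [hB]; ring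
      rw [h4, hs] at hg
      have h5 : s + 3 - 1 = s + 2 := by omega
      rw [h5] at hg
      have h6 : (s + 2) * μ * q ^ 2 ≤ (s + 2) * μ * q ^ b := Nat.mul_le_mul_left _ h2
      nlinarith
    by_contra hc
    push Not at hc
    nlinarith [Nat.zero_le (s * B), Nat.zero_le (s * (μ * q ^ 2))]
  have hKm : B * μ ≤ p ^ u * K * m := by
    calc B * μ = p ^ c * (μ * p ^ t) := by rw [hB, ← hct, pow_add]; ring
      _ ≤ (p ^ u * K) * m := Nat.mul_le_mul hc hm
  have hB1 : 1 ≤ B := Nat.one_le_pow _ _ (by omega)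
  -- `P ≤ p μ` in any case
  have hPμ : p ^ u ≤ p * μ := by
    have h1 : ((q : ZMod (p ^ u))) = -1 := by
      have h3 : ((q + 1 : ℕ) : ZMod (p ^ u)) = 0 := (ZMod.natCast_eq_zero_iff _ _).2 hP
      push_cast at h3
      exact eq_neg_of_add_eq_zero_left h3
    have h2 : (((p - 1) * μ + 1 : ℕ) : ZMod (p ^ u)) = 0 := by
      have h3 : (((p - 1) * μ * q ^ b + 1 : ℕ) : ZMod (p ^ u)) = 0 := by
        rw [hg]
        exact (ZMod.natCast_eq_zero_iff _ _).2 (pow_dvd_pow p (by omega))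
      push_cast at h3 ⊢
      rw [h1, hb.neg_one_pow, mul_one] at h3
      exact h3
    have h3 := Nat.le_of_dvd (by omega) ((ZMod.natCast_eq_zero_iff _ _).1 h2)
    have h4 : (p - 1) * μ + 1 ≤ p * μ := by
      obtain ⟨t, ht⟩ : ∃ t, p = t + 1 := ⟨p - 1, by omega⟩
      subst ht
      simp only [Nat.add_sub_cancel]
      rw [add_mul, one_mul]
      omega
    omega
  rcases Nat.lt_or_ge u 2 with h2 | h2
  · have h3 : u = 1 := by omega
    subst h3
    rw [pow_one] at hPq hc hKm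
    have ha2 : 2 ≤ a := by
      by_contra hcon
      have : a = 1 := by omega
      subst this
      have h4 : B = p ^ 2 := by rw [hB]
      rw [h4] at h1
      have h5 : q ^ 2 ≤ μ * q ^ 2 := Nat.le_mul_of_pos_left _ hμ
      have h6 : (2 * p) ^ 2 ≤ (q + 1) ^ 2 := Nat.pow_le_pow_left hPq 2
      nlinarith
    -- `p ^ (2 a - 1) ≤ K m`
    have h4 : p ^ (2 * a - 1) ≤ K * m := by
      have h5 : p * p ^ (2 * a - 1) ≤ p * (K * m) := by
        have h6 : p * p ^ (2 * a - 1) = B := by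
          rw [hB, ← pow_succ']
          congr 1
          omega
        rw [h6]
        calc B ≤ B * μ := Nat.le_mul_of_pos_right _ hμ
          _ ≤ p * K * m := hKm
          _ = p * (K * m) := by ring
      exact Nat.le_of_mul_le_mul_left h5 (by omega)
    -- squares
    have h5 : (4 * q ^ 3) ^ 2 ≤ (9 * (p ^ (2 * a - 1)) ^ 2) ^ 2 := by
      have h6 : B ^ 3 ≤ ((p ^ (2 * a - 1)) ^ 2) ^ 2 := by
        rw [hB, ← pow_mul, ← pow_mul, ← pow_mul]
        exact Nat.pow_le_pow_right (by omega) (by omega)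
      have h7 : 2 * q ^ 2 ≤ 3 * B := by
        have : q ^ 2 ≤ μ * q ^ 2 := Nat.le_mul_of_pos_left _ hμ
        omega
      have h8 : (2 * q ^ 2) ^ 3 ≤ (3 * B) ^ 3 := Nat.pow_le_pow_left h7 3
      have h9 : (4 * q ^ 3) ^ 2 = 2 * (2 * q ^ 2) ^ 3 := by ring
      have h10 : (3 * B) ^ 3 = 27 * B ^ 3 := by ring
      rw [h9]
      calc 2 * (2 * q ^ 2) ^ 3 ≤ 2 * (27 * B ^ 3) := by rw [← h10]; exact Nat.mul_le_mul_left _ h8
        _ ≤ 2 * (27 * ((p ^ (2 * a - 1)) ^ 2) ^ 2) := Nat.mul_le_mul_left _ (Nat.mul_le_mul_left _ h6)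
        _ ≤ (9 * (p ^ (2 * a - 1)) ^ 2) ^ 2 := by
          have : (9 * (p ^ (2 * a - 1)) ^ 2) ^ 2 = 81 * ((p ^ (2 * a - 1)) ^ 2) ^ 2 := by ring
          rw [this]
          omega
    have h6 := (Nat.pow_le_pow_iff_left two_ne_zero).1 h5
    calc 4 * q ^ 3 ≤ 9 * (p ^ (2 * a - 1)) ^ 2 := h6
      _ ≤ 9 * (K * m) ^ 2 := Nat.mul_le_mul_left _ (Nat.pow_le_pow_left h4 2)
      _ = 9 * K ^ 2 * m ^ 2 := by ring
  · -- `P ≤ μ ^ 2`
    have h3 : p ^ 2 ≤ p ^ u := Nat.pow_le_pow_right (by omega) h2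
    have hPpos : 0 < p ^ u := by positivity
    have h4 : p ^ u ≤ μ ^ 2 := by
      have h5 : p ^ u * p ^ u ≤ (p * μ) * (p * μ) := Nat.mul_le_mul hPμ hPμ
      have h6 : p ^ 2 * p ^ u ≤ p ^ 2 * μ ^ 2 := by
        calc p ^ 2 * p ^ u ≤ p ^ u * p ^ u := Nat.mul_le_mul_right _ h3
          _ ≤ (p * μ) * (p * μ) := h5
          _ = p ^ 2 * μ ^ 2 := by ring
      exact Nat.le_of_mul_le_mul_left h6 (by positivity)
    -- `2 q ^ 2 ≤ 3 K m`
    have h5 : 2 * q ^ 2 ≤ 3 * (K * m) := by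
      have h6 : p ^ u * (2 * q ^ 2) ≤ p ^ u * (3 * (K * m)) := by
        calc p ^ u * (2 * q ^ 2) ≤ μ ^ 2 * (2 * q ^ 2) := Nat.mul_le_mul_right _ h4
          _ = 2 * (μ * q ^ 2) * μ := by ring
          _ ≤ 3 * B * μ := Nat.mul_le_mul_right _ h1
          _ = 3 * (B * μ) := by ring
          _ ≤ 3 * (p ^ u * K * m) := Nat.mul_le_mul_left _ hKm
          _ = p ^ u * (3 * (K * m)) := by ring
      exact Nat.le_of_mul_le_mul_left h6 hPpos
    have h6 : (2 * q ^ 2) ^ 2 ≤ (3 * (K * m)) ^ 2 := Nat.pow_le_pow_left h5 2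
    have h7 : 4 * q ^ 3 ≤ (2 * q ^ 2) ^ 2 := by
      have : (2 * q ^ 2) ^ 2 = 4 * q ^ 3 * q := by ring
      rw [this]
      exact Nat.le_mul_of_pos_right _ (by omega)
    calc 4 * q ^ 3 ≤ (2 * q ^ 2) ^ 2 := h7
      _ ≤ (3 * (K * m)) ^ 2 := h6
      _ = 9 * K ^ 2 * m ^ 2 := by ring

end Pool.Agent.H76D
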