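import Pool.Agent.H76D.A

/-! Odd perfect numbers: valuations of `σ (q ^ k)`. -/

set_option autoImplicit false

namespace Pool.Agent.H76D

open ArithmeticFunction Finset

/-- geometric sums -/
theorem geo {p : ℕ} (hp : p.Prime) (i : ℕ) :
    sigma 1 (p ^ i) * (p - 1) + 1 = p ^ (i + 1) := by
  have h1 : p - 1 + 1 = p := Nat.sub_add_cancel hp.one_lt.le
  have h := geom_sum_mul_add (p - 1) (i + 1)
  rw [h1] at h
  rw [sigma_one_apply_prime_pow hp]
  exact h

theorem le_sig {n : ℕ} (hn : n ≠ 0) : n ≤ sigma 1 n := by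
  rw [sigma_one_apply]
  exact single_le_sum (f := fun d => d) (fun _ _ => Nat.zero_le _) (Nat.mem_divisors_self n hn)

theorem coprime_sig_self {p : ℕ} (hp : p.Prime) (i : ℕ) : Nat.Coprime (sigma 1 (p ^ i)) p := by
  rw [sigma_one_apply_prime_pow hp, Finset.sum_range_succ']
  rw [pow_zero]
  have h : p ∣ ∑ k ∈ range i, p ^ (k + 1) := dvd_sum fun k _ => dvd_pow_self p (Nat.succ_ne_zero k)
  obtain ⟨t, ht⟩ := h
  rw [ht]
  simp

theorem W_eq {q k K : ℕ} (hq : q.Prime) (hk : k + 1 = 2 * K) : sigma 1 (q ^ k) * (q - 1) = q ^ (2 * K) - 1 := by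
  rw [← hk]
  have := geo hq k
  omega

theorem W_ne {q k : ℕ} (hq : q.Prime) : sigma 1 (q ^ k) ≠ 0 := by
  have := le_sig (n := q ^ k) (pow_ne_zero _ hq.ne_zero)
  have h2 : 0 < q ^ k := pow_pos hq.pos _
  omega

/-- The valuation of `σ (q ^ k)` at an odd prime divisor of `q + 1`. -/
theorem val_sig {p q k K : ℕ} (hp : p.Prime) (hp2 : p ≠ 2) (hq : q.Prime) (hpq : p ∣ q + 1)
    (hk : k + 1 = 2 * K) (hK : K ≠ 0) :
    padicValNat p (sigma 1 (q ^ k)) = padicValNat p (q + 1) + padicValNat p K := by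
  have : Fact p.Prime := ⟨hp⟩
  have hq1 : 1 < q := hq.one_lt
  have hW0 : sigma 1 (q ^ k) ≠ 0 := W_ne hq
  have h1 : sigma 1 (q ^ k) * (q - 1) = (q ^ 2) ^ K - 1 ^ K := by
    rw [← pow_mul, ← hk, one_pow]
    have := geo hq k
    omega
  have hpx : p ∣ q ^ 2 - 1 := by
    have : q ^ 2 - 1 = (q + 1) * (q - 1) := by
      have := Nat.sq_sub_sq q 1
      simpa using this
    rw [this]
    exact hpq.mul_right _
  have hnp : ¬ p ∣ q ^ 2 := by
    intro h
    have h2 : p ∣ q := hp.dvd_of_dvd_pow h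
    have h3 : p ∣ 1 := (Nat.dvd_add_right h2).1 hpq
    exact hp.one_lt.ne' (Nat.dvd_one.1 h3)
  have h3 := padicValNat.pow_sub_pow (p := p) (x := q ^ 2) (y := 1) (hp.odd_of_ne_two hp2)
    (one_lt_pow₀ hq1 two_ne_zero) hpx hnp hK
  rw [← h1] at h3
  have h4 : q ^ 2 - 1 = (q + 1) * (q - 1) := by
    have := Nat.sq_sub_sq q 1
    simpa using this
  rw [h4, padicValNat.mul hW0 (by omega), padicValNat.mul (by omega) (by omega)] at h3
  omega

/-- The valuation of `σ (q ^ k)` at an odd prime divisor of `q - 1`. -/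
theorem val_sig' {p q k K : ℕ} (hp : p.Prime) (hp2 : p ≠ 2) (hq : q.Prime) (hpq : p ∣ q - 1)
    (hk : k + 1 = 2 * K) (hK : K ≠ 0) :
    padicValNat p (sigma 1 (q ^ k)) = padicValNat p K := by
  have : Fact p.Prime := ⟨hp⟩
  have hq1 : 1 < q := hq.one_lt
  have hW0 : sigma 1 (q ^ k) ≠ 0 := W_ne hq
  have h1 : sigma 1 (q ^ k) * (q - 1) = q ^ (2 * K) - 1 ^ (2 * K) := by
    rw [one_pow]; exact W_eq hq hk
  have hnp : ¬ p ∣ q := by
    intro h
    have h3 : p ∣ q - (q - 1) := Nat.dvd_sub h hpq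
    have h4 : q - (q - 1) = 1 := by omega
    rw [h4] at h3
    exact hp.one_lt.ne' (Nat.dvd_one.1 h3)
  have h3 := padicValNat.pow_sub_pow (p := p) (x := q) (y := 1) (hp.odd_of_ne_two hp2)
    hq1 hpq hnp (n := 2 * K) (by omega)
  have h5 : padicValNat p (2 * K) = padicValNat p K := by
    rw [padicValNat.mul two_ne_zero hK, padicValNat.eq_zero_of_not_dvd (n := 2), zero_add]
    intro h
    exact hp2 ((Nat.prime_dvd_prime_iff_eq hp Nat.prime_two).1 h)
  rw [← h1, padicValNat.mul hW0 (by omega), h5] at h3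
  omega

/-- exceptional primes: cofactor one -/
theorem X3 {p q k K a b c t m : ℕ} (hp : p.Prime) (hp2 : p ≠ 2) (hq : q.Prime) (ha : 1 ≤ a)
    (h1 : ¬ p ∣ q + 1) (h2 : ¬ p ∣ q - 1) (hk : k + 1 = 2 * K) (hK : K ≠ 0)
    (hc : c = padicValNat p (sigma 1 (q ^ k))) (hc1 : 1 ≤ c) (hct : c + t = 2 * a)
    (hg : (p - 1) * q ^ b + 1 = p ^ (2 * a + 1)) (hm : p ^ t ≤ m) :
    4 * q ^ 3 ≤ 9 * K ^ 2 * m ^ 2 := by
  have : Fact p.Prime := ⟨hp⟩
  have hq1 : 1 < q := hq.one_lt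
  have hp3 : 3 ≤ p := by
    have := hp.two_le
    omega
  have hW0 : sigma 1 (q ^ k) ≠ 0 := W_ne hq
  have hq2 : q ^ 2 - 1 = (q + 1) * (q - 1) := by
    have := Nat.sq_sub_sq q 1
    simpa using this
  -- `p ∣ q ^ b - 1`
  have hqb : 1 ≤ q ^ b := Nat.one_le_pow _ _ (by omega)
  have hb1 : p ∣ q ^ b - 1 := by
    have h3 : p * q ^ b = p ^ (2 * a + 1) + (q ^ b - 1) := by
      have h4 : p * q ^ b = (p - 1) * q ^ b + q ^ b := by
        obtain ⟨s, hs⟩ : ∃ s, p = s + 1 := ⟨p - 1, by omega⟩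
        subst hs
        simp only [Nat.add_sub_cancel]
        ring
      omega
    have h5 : p ∣ p ^ (2 * a + 1) + (q ^ b - 1) := by
      rw [← h3]
      exact dvd_mul_right _ _
    exact (Nat.dvd_add_right (dvd_pow_self p (by omega))).1 h5
  have hb3 : 3 ≤ b := by
    by_contra hcon
    have h3 : b = 0 ∨ b = 1 ∨ b = 2 := by omega
    rcases h3 with h3 | h3 | h3
    · subst h3
      rw [pow_zero, mul_one] at hg
      have h4 : p ^ 1 = p ^ (2 * a + 1) := by rw [pow_one]; omega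
      have := Nat.pow_right_injective (by omega : 2 ≤ p) h4
      omega
    · subst h3
      rw [pow_one] at hb1
      exact h2 hb1
    · subst h3
      rw [hq2] at hb1
      rcases (Nat.Prime.dvd_mul hp).1 hb1 with h | h
      · exact h1 h
      · exact h2 h
  -- the gcd
  have hWd : sigma 1 (q ^ k) ∣ q ^ (2 * K) - 1 := ⟨q - 1, (W_eq hq hk).symm⟩
  have hpW : p ∣ sigma 1 (q ^ k) := by
    by_contra h
    rw [padicValNat.eq_zero_of_not_dvd h] at hc
    omega
  set g := Nat.gcd b (2 * K) with hgdef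
  have hg0 : 0 < g := Nat.gcd_pos_of_pos_left _ (by omega)
  have hgcd : p ∣ q ^ g - 1 := by
    have h3 : p ∣ Nat.gcd (q ^ b - 1) (q ^ (2 * K) - 1) := Nat.dvd_gcd hb1 (hpW.trans hWd)
    rwa [Nat.pow_sub_one_gcd_pow_sub_one] at h3
  obtain ⟨n, hn⟩ : g ∣ 2 * K := Nat.gcd_dvd_right _ _
  have hn0 : n ≠ 0 := by
    rintro rfl
    omega
  have hqg1 : 1 < q ^ g := Nat.one_lt_pow (by omega) hq1
  have hnp : ¬ p ∣ q ^ g := by
    intro h
    have h3 : p ∣ q ^ g - (q ^ g - 1) := Nat.dvd_sub h hgcd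
    have h4 : q ^ g - (q ^ g - 1) = 1 := by omega
    rw [h4] at h3
    exact hp.one_lt.ne' (Nat.dvd_one.1 h3)
  have h3 := padicValNat.pow_sub_pow (p := p) (x := q ^ g) (y := 1) (hp.odd_of_ne_two hp2)
    hqg1 hgcd hnp hn0
  rw [← pow_mul, ← hn, one_pow] at h3
  have hv1 : padicValNat p (q ^ g - 1) ≤ 1 := by
    by_contra hcon
    push Not at hcon
    have h4 : p ^ 2 ∣ q ^ g - 1 := (padicValNat_dvd_iff_le (by omega)).2 hcon
    have h5 : q ^ g - 1 ∣ q ^ b - 1 := by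
      obtain ⟨y, hy⟩ : g ∣ b := Nat.gcd_dvd_left _ _
      rw [hy, pow_mul]
      have := Nat.sub_dvd_pow_sub_pow (q ^ g) 1 y
      rwa [one_pow] at this
    obtain ⟨w, hw⟩ := h4.trans h5
    have h6 : p ^ 2 ∣ p := by
      have h7 : p ^ 2 ∣ (p - 1) * (q ^ b - 1) + p := by
        have h8 : (p - 1) * (q ^ b - 1) + p = p ^ (2 * a + 1) := by
          have h9 : (p - 1) * (q ^ b - 1) + (p - 1) = (p - 1) * q ^ b := by
            have : q ^ b = (q ^ b - 1) + 1 := by omega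
            conv_rhs => rw [this]
            ring
          omega
        rw [h8]
        exact pow_dvd_pow p (by omega)
      have h8 : p ^ 2 ∣ (p - 1) * (q ^ b - 1) := by
        rw [hw]
        exact ⟨(p - 1) * w, by ring⟩
      exact (Nat.dvd_add_right h8).1 h7
    have h7 := Nat.le_of_dvd (by omega) h6
    nlinarith
  have hpc : p ^ c ≤ p * K := by
    have h4 : c ≤ padicValNat p (q ^ (2 * K) - 1) := by
      rw [hc]
      have h5 : q ^ (2 * K) - 1 ≠ 0 := by
        have : 1 < q ^ (2 * K) := Nat.one_lt_pow (by omega) hq1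
        omega
      exact (padicValNat_dvd_iff_le h5).1 (pow_padicValNat_dvd.trans hWd)
    have h5 : p ^ padicValNat p n ∣ K := by
      have h6 : p ^ padicValNat p n ∣ 2 * K := by
        rw [hn]
        exact pow_padicValNat_dvd.mul_left _
      have h7 : Nat.Coprime (p ^ padicValNat p n) 2 := by
        refine Nat.Coprime.pow_left _ ((Nat.Prime.coprime_iff_not_dvd hp).2 ?_)
        intro h
        exact hp2 ((Nat.prime_dvd_prime_iff_eq hp Nat.prime_two).1 h)
      exact h7.dvd_of_dvd_mul_left h6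
    calc p ^ c ≤ p ^ (1 + padicValNat p n) := Nat.pow_le_pow_right (by omega) (by omega)
      _ = p * p ^ padicValNat p n := by rw [pow_add, pow_one]
      _ ≤ p * K := Nat.mul_le_mul_left _ (Nat.le_of_dvd (Nat.pos_of_ne_zero hK) h5)
  -- sizes
  set B := p ^ (2 * a) with hB
  have h4 : 2 * q ^ 3 ≤ 3 * B := by
    have h5 : q ^ 3 ≤ q ^ b := Nat.pow_le_pow_right (by omega) hb3
    obtain ⟨s, hs⟩ : ∃ s, p = s + 3 := ⟨p - 3, by omega⟩
    have h6 : (s + 2) * q ^ 3 ≤ (s + 3) * B := by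
      have h7 : p ^ (2 * a + 1) = p * B := by rw [hB]; ring
      rw [h7, hs] at hg
      have h8 : s + 3 - 1 = s + 2 := by omega
      rw [h8] at hg
      have h9 : (s + 2) * q ^ 3 ≤ (s + 2) * q ^ b := Nat.mul_le_mul_left _ h5
      omega
    by_contra hc
    push Not at hc
    nlinarith [Nat.zero_le (s * B), Nat.zero_le (s * q ^ 3)]
  have h5 : p ^ (2 * a - 1) ≤ K * m := by
    have h6 : p * p ^ (2 * a - 1) ≤ p * (K * m) := by
      have h7 : p * p ^ (2 * a - 1) = B := by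
        rw [hB, ← pow_succ']
        congr 1
        omega
      rw [h7]
      calc B = p ^ c * p ^ t := by rw [hB, ← hct, pow_add]
        _ ≤ (p * K) * m := Nat.mul_le_mul hpc hm
        _ = p * (K * m) := by ring
    exact Nat.le_of_mul_le_mul_left h6 (by omega)
  have h6 : B ≤ (p ^ (2 * a - 1)) ^ 2 := by
    rw [hB, ← pow_mul]
    exact Nat.pow_le_pow_right (by omega) (by omega)
  have h7 : (p ^ (2 * a - 1)) ^ 2 ≤ (K * m) ^ 2 := Nat.pow_le_pow_left h5 2
  calc 4 * q ^ 3 ≤ 9 * B := by omega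
    _ ≤ 9 * (K * m) ^ 2 := Nat.mul_le_mul_left _ (h6.trans h7)
    _ = 9 * K ^ 2 * m ^ 2 := by ring

end Pool.Agent.H76D
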