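import Pool.Agent.H76D.B

/-! Odd perfect numbers: the assembly. -/

set_option autoImplicit false

namespace Pool.Agent.H76D

open ArithmeticFunction Finset

theorem prod_eq {N : ℕ} (hN : N ≠ 0) : ∏ p ∈ N.primeFactors, p ^ padicValNat p N = N := by
  conv_rhs => rw [← Nat.prod_factorization_pow_eq_self hN]
  rw [Finsupp.prod, Nat.support_factorization]
  refine prod_congr rfl (fun p hp => ?_)
  rw [Nat.factorization_def _ (Nat.prime_of_mem_primeFactors hp)]

theorem prod_le {N : ℕ} (hN : N ≠ 0) (B : Finset ℕ) (hB : ∀ p ∈ B, p.Prime) :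
    ∏ p ∈ B, p ^ padicValNat p N ≤ N := by
  calc ∏ p ∈ B, p ^ padicValNat p N = ∏ p ∈ B.filter (fun p => p ∈ N.primeFactors), p ^ padicValNat p N := by
        symm
        refine prod_subset (filter_subset _ _) (fun p hp hp2 => ?_)
        have h1 : ¬ p ∣ N := by
          intro h
          exact hp2 (mem_filter.2 ⟨hp, Nat.mem_primeFactors.2 ⟨hB p hp, h, hN⟩⟩)
        rw [padicValNat.eq_zero_of_not_dvd h1, pow_zero]
    _ ≤ ∏ p ∈ N.primeFactors, p ^ padicValNat p N := by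
        refine prod_le_prod_of_subset_of_one_le' (fun p hp => (mem_filter.1 hp).2) (fun p hp _ => ?_)
        exact Nat.one_le_pow _ _ (Nat.prime_of_mem_primeFactors hp).pos
    _ = N := prod_eq hN

theorem pow_split {q x y A B : ℕ} (hq : q.Prime) (hA : ¬ q ∣ A) (hB : ¬ q ∣ B) (h : q ^ x * A = q ^ y * B) :
    x = y ∧ A = B := by
  have hxy : x = y := by
    have : Fact q.Prime := ⟨hq⟩
    have hA0 : A ≠ 0 := by rintro rfl; simp at hA
    have hB0 : B ≠ 0 := by rintro rfl; simp at hB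
    have h1 := congrArg (padicValNat q) h
    rw [padicValNat.mul (pow_ne_zero _ hq.ne_zero) hA0, padicValNat.mul (pow_ne_zero _ hq.ne_zero) hB0,
      padicValNat.prime_pow, padicValNat.prime_pow, padicValNat.eq_zero_of_not_dvd hA,
      padicValNat.eq_zero_of_not_dvd hB] at h1
    omega
  subst hxy
  exact ⟨rfl, Nat.eq_of_mul_eq_mul_left (pow_pos hq.pos _) h⟩

/-- The two relations between `n`, `m = σ (n ^ 2) / q ^ k` and `σ (q ^ k)`. -/
theorem setup {q k n : ℕ} (hodd : Odd (q ^ k * n ^ 2)) (hperf : Nat.Perfect (q ^ k * n ^ 2))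
    (hq : q.Prime) (hcop : Nat.Coprime q n) :
    ∃ m, m ≠ 0 ∧ sigma 1 (n ^ 2) = q ^ k * m ∧ sigma 1 (q ^ k) * m = 2 * n ^ 2 := by
  have hn0 : n ≠ 0 := by
    rintro rfl
    simp at hodd
  have hpos : 0 < q ^ k * n ^ 2 := Nat.mul_pos (pow_pos hq.pos _) (by positivity)
  have h1 : sigma 1 (q ^ k * n ^ 2) = 2 * (q ^ k * n ^ 2) := by
    rw [sigma_one_apply]
    exact (Nat.perfect_iff_sum_divisors_eq_two_mul hpos).1 hperf
  have hc : Nat.Coprime (q ^ k) (n ^ 2) := (hcop.pow_left k).pow_right 2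
  rw [isMultiplicative_sigma.map_mul_of_coprime hc] at h1
  have h2 : Nat.Coprime (q ^ k) (sigma 1 (q ^ k)) := (coprime_sig_self hq k).symm.pow_left k
  have h3 : q ^ k ∣ sigma 1 (n ^ 2) := by
    refine h2.dvd_of_dvd_mul_left ?_
    rw [h1]
    exact ⟨2 * n ^ 2, by ring⟩
  obtain ⟨m, hm⟩ := h3
  have hs0 : sigma 1 (n ^ 2) ≠ 0 := by
    have := le_sig (n := n ^ 2) (pow_ne_zero _ hn0)
    have h2 : 0 < n ^ 2 := by positivity
    omega
  refine ⟨m, ?_, hm, ?_⟩
  · rintro rfl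
    rw [mul_zero] at hm
    exact hs0 hm
  · rw [hm] at h1
    have h4 : q ^ k * (sigma 1 (q ^ k) * m) = q ^ k * (2 * n ^ 2) := by
      rw [show q ^ k * (sigma 1 (q ^ k) * m) = sigma 1 (q ^ k) * (q ^ k * m) by ring, h1]
      ring
    exact Nat.eq_of_mul_eq_mul_left (pow_pos hq.pos k) h4

theorem dvd_sig {q k K : ℕ} (hq : q.Prime) (hk : k + 1 = 2 * K) : q + 1 ∣ sigma 1 (q ^ k) := by
  have hq1 := hq.one_lt
  have h1 : sigma 1 (q ^ k) * (q - 1) = (q ^ 2) ^ K - 1 ^ K := by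
    rw [← pow_mul, ← hk, one_pow]
    have := geo hq k
    omega
  have h4 : q ^ 2 - 1 = (q + 1) * (q - 1) := by
    have := Nat.sq_sub_sq q 1
    simpa using this
  have h2 := Nat.sub_dvd_pow_sub_pow (q ^ 2) 1 K
  rw [← h1, h4] at h2
  exact Nat.dvd_of_mul_dvd_mul_right (by omega) h2

theorem sigma_sq {n : ℕ} (hn : n ≠ 0) :
    sigma 1 (n ^ 2) = ∏ p ∈ n.primeFactors, sigma 1 (p ^ (2 * padicValNat p n)) := by
  rw [isMultiplicative_sigma.multiplicative_factorization (sigma 1) (pow_ne_zero 2 hn), Finsupp.prod,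
    Nat.support_factorization, Nat.primeFactors_pow n two_ne_zero]
  refine prod_congr rfl (fun p hp => ?_)
  rw [Nat.factorization_pow, Finsupp.smul_apply, smul_eq_mul,
    Nat.factorization_def _ (Nat.prime_of_mem_primeFactors hp)]

/-- the bound for `m` -/
theorem m_bound {q k n K m : ℕ} (hq : q.Prime) (hcop : Nat.Coprime q n) (hq4 : q % 4 = 1)
    (hk : k + 1 = 2 * K) (hK : 3 ≤ K) (hKo : Odd K) (hn : Odd n) (hm0 : m ≠ 0)
    (hs : sigma 1 (n ^ 2) = q ^ k * m) (hW : sigma 1 (q ^ k) * m = 2 * n ^ 2)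
    (hX : ¬ 4 * q ^ 3 ≤ 9 * K ^ 2 * m ^ 2) :
    q ^ ((K - 1) * (K + 1) + (k - 1)) ≤ K * (2 ^ (k + 1) * m) ^ ((K - 1) * (K + 1)) := by
  classical
  have hq1 := hq.one_lt
  have hq5 : 5 ≤ q := by omega
  have hn0 : n ≠ 0 := by rintro rfl; simp at hn
  have hW0 : sigma 1 (q ^ k) ≠ 0 := W_ne hq
  set W := sigma 1 (q ^ k) with hWdef
  have hK0 : K ≠ 0 := by omega
  have hqW : q + 1 ∣ W := dvd_sig hq hk
  have h2q : 2 ∣ q + 1 := by omega
  have h2W : 2 ∣ W := h2q.trans hqW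
  have hn2o : ¬ 2 ∣ n := by
    intro h
    obtain ⟨y, hy⟩ := hn
    omega
  have hn2o' : ¬ 2 ∣ n ^ 2 := fun h => hn2o (Nat.prime_two.dvd_of_dvd_pow h)
  have hmn : m ∣ n ^ 2 := by
    obtain ⟨w, hw⟩ := h2W
    refine ⟨w, ?_⟩
    rw [hw] at hW
    nlinarith
  have hqm : ¬ q ∣ m := by
    intro h
    have h1 : q ∣ n := hq.dvd_of_dvd_pow (h.trans hmn)
    exact ((Nat.Prime.coprime_iff_not_dvd hq).1 hcop) h1
  set S : ℕ → ℕ := fun p => sigma 1 (p ^ (2 * padicValNat p n)) with hS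
  set b : ℕ → ℕ := fun p => padicValNat q (S p) with hb
  set μ : ℕ → ℕ := fun p => S p / q ^ b p with hμ
  have hqF : Fact q.Prime := ⟨hq⟩
  have hprime : ∀ p ∈ n.primeFactors, p.Prime := fun p hp => Nat.prime_of_mem_primeFactors hp
  have hS0 : ∀ p ∈ n.primeFactors, S p ≠ 0 := fun p hp => W_ne (hprime p hp)
  have hSe : ∀ p ∈ n.primeFactors, S p = q ^ b p * μ p := by
    intro p _
    rw [hμ]
    exact (Nat.mul_div_cancel' pow_padicValNat_dvd).symm
  have hμ0 : ∀ p ∈ n.primeFactors, μ p ≠ 0 := by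
    intro p hp h
    have := hSe p hp
    rw [h, mul_zero] at this
    exact hS0 p hp this
  have hqμ : ∀ p ∈ n.primeFactors, ¬ q ∣ μ p := by
    intro p hp h
    obtain ⟨w, hw⟩ := h
    have h1 : q ^ (b p + 1) ∣ S p := by
      rw [hSe p hp, hw]
      exact ⟨w, by ring⟩
    have h2 := (padicValNat_dvd_iff_le (hS0 p hp)).1 h1
    have h3 : b p = padicValNat q (S p) := rfl
    omega
  have hprod : q ^ (∑ p ∈ n.primeFactors, b p) * ∏ p ∈ n.primeFactors, μ p = q ^ k * m := by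
    rw [← hs, sigma_sq hn0, ← prod_pow_eq_pow_sum, ← prod_mul_distrib]
    exact prod_congr rfl (fun p hp => (hSe p hp).symm)
  have hqP : ¬ q ∣ ∏ p ∈ n.primeFactors, μ p := by
    intro h
    obtain ⟨p, hp, h1⟩ := (Prime.dvd_finsetProd_iff hq.prime _).1 h
    exact hqμ p hp h1
  obtain ⟨hbsum, hμprod⟩ := pow_split hq hqP hqm hprod
  have hqodd : Odd q := by
    rw [Nat.odd_iff]; omega
  have hmodd : Odd m := by
    rw [← Nat.not_even_iff_odd, even_iff_two_dvd]
    exact fun h => hn2o' (h.trans hmn)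
  have hμodd : ∀ p ∈ n.primeFactors, Odd (μ p) := by
    intro p hp
    have h1 : μ p ∣ m := by
      rw [← hμprod]
      exact dvd_prod_of_mem μ hp
    exact Odd.of_dvd_nat hmodd h1
  -- local data
  have hcop2 : ∀ p ∈ n.primeFactors, Nat.Coprime (μ p) p := by
    intro p hp
    have h1 : Nat.Coprime (S p) p := coprime_sig_self (hprime p hp) _
    rw [hSe p hp] at h1
    exact Nat.Coprime.coprime_mul_left h1
  have hne2 : ∀ p ∈ n.primeFactors, p ≠ 2 := by
    rintro p hp rfl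
    exact hn2o (Nat.dvd_of_mem_primeFactors hp)
  have hct : ∀ p ∈ n.primeFactors, padicValNat p W + padicValNat p m = 2 * padicValNat p n := by
    intro p hp
    have : Fact p.Prime := ⟨hprime p hp⟩
    have h1 := congrArg (padicValNat p) hW
    rw [padicValNat.mul hW0 hm0, padicValNat.mul two_ne_zero (pow_ne_zero 2 hn0), padicValNat.pow,
      padicValNat.eq_zero_of_not_dvd (n := 2), zero_add] at h1
    · exact h1
    · intro h
      exact hne2 p hp ((Nat.prime_dvd_prime_iff_eq (hprime p hp) Nat.prime_two).1 h)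
  have hmem : ∀ p, p.Prime → p ≠ 2 → p ∣ W → p ∈ n.primeFactors := by
    intro p hp h2 h
    refine Nat.mem_primeFactors.2 ⟨hp, ?_, hn0⟩
    have h1 : p ∣ 2 * n ^ 2 := by
      rw [← hW]
      exact h.mul_right _
    rcases (Nat.Prime.dvd_mul hp).1 h1 with h3 | h3
    · exact absurd ((Nat.prime_dvd_prime_iff_eq hp Nat.prime_two).1 h3) h2
    · exact hp.dvd_of_dvd_pow h3
  have hgeo : ∀ p ∈ n.primeFactors, (p - 1) * μ p * q ^ b p + 1 = p ^ (2 * padicValNat p n + 1) := by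
    intro p hp
    rw [← geo (hprime p hp) (2 * padicValNat p n)]
    have h1 : sigma 1 (p ^ (2 * padicValNat p n)) = q ^ b p * μ p := hSe p hp
    rw [h1]
    ring
  have hmt : ∀ p ∈ n.primeFactors, μ p * p ^ padicValNat p m ≤ m := by
    intro p hp
    have h1 : μ p ∣ m := by
      rw [← hμprod]
      exact dvd_prod_of_mem μ hp
    have h2 : Nat.Coprime (μ p) (p ^ padicValNat p m) := (hcop2 p hp).pow_right _
    exact Nat.le_of_dvd (Nat.pos_of_ne_zero hm0) (h2.mul_dvd_of_dvd_of_dvd h1 pow_padicValNat_dvd)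
  set A2 := (q + 1).primeFactors.erase 2 with hA2
  set A3 := W.primeFactors.filter (fun p => p ≠ 2 ∧ ¬ p ∣ q + 1 ∧ ¬ p ∣ q - 1) with hA3
  have hA2n : ∀ p ∈ A2, p ∈ n.primeFactors ∧ p ∣ q + 1 := by
    intro p hp
    rw [hA2, mem_erase] at hp
    have h1 := Nat.dvd_of_mem_primeFactors hp.2
    exact ⟨hmem p (Nat.prime_of_mem_primeFactors hp.2) hp.1 (h1.trans hqW), h1⟩
  have hA3n : ∀ p ∈ A3, p ∈ n.primeFactors ∧ p ∣ W ∧ ¬ p ∣ q + 1 ∧ ¬ p ∣ q - 1 := by
    intro p hp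
    rw [hA3, mem_filter] at hp
    have h1 := Nat.dvd_of_mem_primeFactors hp.1
    exact ⟨hmem p (Nat.prime_of_mem_primeFactors hp.1) hp.2.1 h1, h1, hp.2.2.1, hp.2.2.2⟩
  -- primes of `q + 1`
  have hb2 : ∀ p ∈ A2, p ^ padicValNat p (q + 1) ≤ 2 ^ b p * μ p := by
    intro p hp
    obtain ⟨hpn, hpq⟩ := hA2n p hp
    have hpp := hprime p hpn
    have : Fact p.Prime := ⟨hpp⟩
    have hp2 := hne2 p hpn
    have hu1 : 1 ≤ padicValNat p (q + 1) := one_le_padicValNat_of_dvd (by omega) hpq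
    have hval := val_sig (k := k) hpp hp2 hq hpq hk hK0
    rw [← hWdef] at hval
    have hct' := hct p hpn
    have hu : padicValNat p (q + 1) ≤ 2 * padicValNat p n := by omega
    have hg := hgeo p hpn
    rcases Nat.even_or_odd (b p) with he | ho
    · rcases Nat.eq_zero_or_pos (b p) with h0 | h0
      · rw [h0, pow_zero, one_mul]
        have h1 := hSe p hpn
        rw [h0, pow_zero, one_mul] at h1
        rw [← h1]
        calc p ^ padicValNat p (q + 1) ≤ p ^ (2 * padicValNat p n) := Nat.pow_le_pow_right hpp.pos hu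
          _ ≤ S p := le_sig (pow_ne_zero _ hpp.ne_zero)
      · exfalso
        apply hX
        have h2 : 2 ≤ b p := by
          obtain ⟨y, hy⟩ := he
          omega
        refine X2 (t := padicValNat p m) (c := padicValNat p W) hpp hp2 hq5 pow_padicValNat_dvd hu1 ?_ hu hg he h2
          (Nat.pos_of_ne_zero (hμ0 p hpn)) hct' ?_ (hmt p hpn)
        · have h3 : Nat.Coprime 2 (p ^ padicValNat p (q + 1)) := by
            refine Nat.Coprime.pow_right _ ((Nat.Prime.coprime_iff_not_dvd Nat.prime_two).2 ?_)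
            intro h
            exact hp2 ((Nat.prime_dvd_prime_iff_eq Nat.prime_two hpp).1 h).symm
          exact Nat.le_of_dvd (by omega) (h3.mul_dvd_of_dvd_of_dvd h2q pow_padicValNat_dvd)
        · rw [hval, pow_add]
          exact Nat.mul_le_mul_left _ (Nat.le_of_dvd (Nat.pos_of_ne_zero hK0) pow_padicValNat_dvd)
    · have h1 := L2 hpp hp2 hu pow_padicValNat_dvd hg ho hu1 (Nat.pos_of_ne_zero (hμ0 p hpn))
      have h2 : 2 ≤ 2 ^ b p := by
        have : 1 ≤ b p := ho.pos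
        calc 2 = 2 ^ 1 := rfl
          _ ≤ 2 ^ b p := Nat.pow_le_pow_right (by norm_num) this
      exact h1.trans (Nat.mul_le_mul_right _ h2)
  -- other primes
  have hb3 : ∀ p ∈ A3, p ^ padicValNat p W ≤ μ p ^ ((K - 1) * (K + 1)) := by
    intro p hp
    obtain ⟨hpn, hpW, h1, h2⟩ := hA3n p hp
    have hpp := hprime p hpn
    have : Fact p.Prime := ⟨hpp⟩
    have hp2 := hne2 p hpn
    have hc1 : 1 ≤ padicValNat p W := one_le_padicValNat_of_dvd hW0 hpW
    have hct' := hct p hpn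
    have hg := hgeo p hpn
    rcases Nat.lt_or_ge (μ p) 2 with h3 | h3
    · exfalso
      apply hX
      have h4 : μ p = 1 := by
        have := hμ0 p hpn
        omega
      rw [h4, mul_one] at hg
      have h5 := hmt p hpn
      rw [h4, one_mul] at h5
      exact X3 (c := padicValNat p W) hpp hp2 hq (by omega) h1 h2 hk hK0 rfl hc1 hct' hg h5
    · have h4 : p ^ padicValNat p W ∣ q ^ (2 * K) - 1 :=
        pow_padicValNat_dvd.trans ⟨q - 1, (W_eq hq hk).symm⟩
      exact L3 hpp hp2 hK hKo (by omega) h4 (by omega) hc1 hg (hμodd p hpn) h3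
  -- the product over the primes of `q + 1`
  have hA2s : A2 ⊆ n.primeFactors := fun p hp => (hA2n p hp).1
  have hA3s : A3 ⊆ n.primeFactors := fun p hp => (hA3n p hp).1
  have e2 : 2 * ∏ p ∈ A2, p ^ padicValNat p (q + 1) = q + 1 := by
    have h1 := prod_eq (N := q + 1) (by omega)
    have h2 : 2 ∈ (q + 1).primeFactors := Nat.mem_primeFactors.2 ⟨Nat.prime_two, h2q, by omega⟩
    have h3 : padicValNat 2 (q + 1) = 1 := by
      have a1 : 1 ≤ padicValNat 2 (q + 1) := one_le_padicValNat_of_dvd (by omega) h2q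
      have a2 : ¬ 2 ≤ padicValNat 2 (q + 1) := by
        intro h
        have h4 : 2 ^ 2 ∣ q + 1 := (padicValNat_dvd_iff_le (by omega)).2 h
        norm_num at h4
        omega
      omega
    rw [← mul_prod_erase _ _ h2, h3, pow_one] at h1
    exact h1
  have hX2 : q + 1 ≤ 2 ^ (k + 1) * ∏ p ∈ A2, μ p := by
    have h1 : ∏ p ∈ A2, p ^ padicValNat p (q + 1) ≤ ∏ p ∈ A2, 2 ^ b p * μ p :=
      prod_le_prod' hb2
    rw [prod_mul_distrib, prod_pow_eq_pow_sum] at h1
    have h2 : ∑ p ∈ A2, b p ≤ k := by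
      rw [← hbsum]
      exact sum_le_sum_of_subset hA2s
    have h3 : 2 ^ (∑ p ∈ A2, b p) * ∏ p ∈ A2, μ p ≤ 2 ^ k * ∏ p ∈ A2, μ p :=
      Nat.mul_le_mul_right _ (Nat.pow_le_pow_right (by norm_num) h2)
    calc q + 1 = 2 * ∏ p ∈ A2, p ^ padicValNat p (q + 1) := e2.symm
      _ ≤ 2 * (2 ^ k * ∏ p ∈ A2, μ p) := Nat.mul_le_mul_left _ (h1.trans h3)
      _ = 2 ^ (k + 1) * ∏ p ∈ A2, μ p := by ring
  -- the product over all primes of `W`
  have hW3 : W ≤ (q + 1) * K * ∏ p ∈ A3, p ^ padicValNat p W := by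
    have hpr : ∀ p ∈ W.primeFactors, p.Prime := fun p hp => Nat.prime_of_mem_primeFactors hp
    have h1 : ∀ p ∈ W.primeFactors, p ^ padicValNat p W ≤
        (p ^ padicValNat p (q + 1) * p ^ padicValNat p K) *
          (if p ≠ 2 ∧ ¬ p ∣ q + 1 ∧ ¬ p ∣ q - 1 then p ^ padicValNat p W else 1) := by
      intro p hp
      have hpp := hpr p hp
      have g1 : 1 ≤ p ^ padicValNat p (q + 1) := Nat.one_le_pow _ _ hpp.pos
      have g2 : 1 ≤ p ^ padicValNat p K := Nat.one_le_pow _ _ hpp.pos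
      by_cases hc : p ≠ 2 ∧ ¬ p ∣ q + 1 ∧ ¬ p ∣ q - 1
      · rw [if_pos hc]
        exact Nat.le_mul_of_pos_left _ (Nat.mul_pos g1 g2)
      · rw [if_neg hc, mul_one]
        by_cases h2 : p = 2
        · subst h2
          have a1 : 1 ≤ padicValNat 2 (q + 1) := one_le_padicValNat_of_dvd (by omega) h2q
          have a2 : padicValNat 2 W ≤ 1 := by
            by_contra hcon
            push Not at hcon
            have h4 : 2 ^ 2 ∣ W := (padicValNat_dvd_iff_le hW0).2 hcon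
            obtain ⟨w, hw⟩ := h4
            apply hn2o'
            refine ⟨w * m, ?_⟩
            rw [hw] at hW
            nlinarith
          calc 2 ^ padicValNat 2 W ≤ 2 ^ padicValNat 2 (q + 1) :=
                Nat.pow_le_pow_right (by norm_num) (by omega)
            _ ≤ 2 ^ padicValNat 2 (q + 1) * 2 ^ padicValNat 2 K := Nat.le_mul_of_pos_right _ g2
        · by_cases h3 : p ∣ q + 1
          · have := val_sig (k := k) hpp h2 hq h3 hk hK0
            rw [← hWdef] at this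
            rw [this, pow_add]
          · have h4 : p ∣ q - 1 := by
              by_contra h4
              exact hc ⟨h2, h3, h4⟩
            have := val_sig' (k := k) hpp h2 hq h4 hk hK0
            rw [← hWdef] at this
            rw [this]
            exact Nat.le_mul_of_pos_left _ g1
    calc W = ∏ p ∈ W.primeFactors, p ^ padicValNat p W := (prod_eq hW0).symm
      _ ≤ ∏ p ∈ W.primeFactors, (p ^ padicValNat p (q + 1) * p ^ padicValNat p K) *
          (if p ≠ 2 ∧ ¬ p ∣ q + 1 ∧ ¬ p ∣ q - 1 then p ^ padicValNat p W else 1) := prod_le_prod' h1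
      _ = (∏ p ∈ W.primeFactors, p ^ padicValNat p (q + 1)) * (∏ p ∈ W.primeFactors, p ^ padicValNat p K) *
          ∏ p ∈ A3, p ^ padicValNat p W := by
            rw [prod_mul_distrib, prod_mul_distrib, hA3, prod_filter]
      _ ≤ (q + 1) * K * ∏ p ∈ A3, p ^ padicValNat p W :=
            Nat.mul_le_mul_right _ (Nat.mul_le_mul (prod_le (by omega) _ hpr) (prod_le hK0 _ hpr))
  have hWlow : q ^ (k - 1) * (q + 1) ≤ W := by
    have h1 : W * (q - 1) = q ^ (2 * K) - 1 := W_eq hq hk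
    have h2 : q ^ (k - 1) * (q + 1) * (q - 1) ≤ W * (q - 1) := by
      have h3 : q ^ (k - 1) * (q + 1) * (q - 1) = q ^ (2 * K) - q ^ (k - 1) := by
        have h4 : (q + 1) * (q - 1) = q ^ 2 - 1 := by
          have := Nat.sq_sub_sq q 1
          simpa using this.symm
        rw [mul_assoc, h4, Nat.mul_sub, mul_one, ← pow_add]
        congr 2
        omega
      rw [h3, h1]
      have : 1 ≤ q ^ (k - 1) := Nat.one_le_pow _ _ (by omega)
      omega
    exact Nat.le_of_mul_le_mul_right h2 (by omega)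
  have hY : q ^ (k - 1) ≤ K * (∏ p ∈ A3, μ p) ^ ((K - 1) * (K + 1)) := by
    have h1 : ∏ p ∈ A3, p ^ padicValNat p W ≤ (∏ p ∈ A3, μ p) ^ ((K - 1) * (K + 1)) := by
      rw [← prod_pow]
      exact prod_le_prod' hb3
    have h2 : q ^ (k - 1) * (q + 1) ≤ K * (∏ p ∈ A3, μ p) ^ ((K - 1) * (K + 1)) * (q + 1) := by
      calc q ^ (k - 1) * (q + 1) ≤ W := hWlow
        _ ≤ (q + 1) * K * ∏ p ∈ A3, p ^ padicValNat p W := hW3
        _ ≤ (q + 1) * K * (∏ p ∈ A3, μ p) ^ ((K - 1) * (K + 1)) := Nat.mul_le_mul_left _ h1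
        _ = K * (∏ p ∈ A3, μ p) ^ ((K - 1) * (K + 1)) * (q + 1) := by ring
    exact Nat.le_of_mul_le_mul_right h2 (by omega)
  have hXY : (∏ p ∈ A2, μ p) * (∏ p ∈ A3, μ p) ≤ m := by
    have hd : Disjoint A2 A3 := by
      rw [disjoint_left]
      intro p h1 h2
      exact (hA3n p h2).2.2.1 (hA2n p h1).2
    rw [← prod_union hd, ← hμprod]
    exact prod_le_prod_of_subset_of_one_le' (union_subset hA2s hA3s)
      (fun p hp _ => Nat.pos_of_ne_zero (hμ0 p hp))
  set X := ∏ p ∈ A2, μ p with hXdef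
  set Y := ∏ p ∈ A3, μ p with hYdef
  calc q ^ ((K - 1) * (K + 1) + (k - 1)) = q ^ ((K - 1) * (K + 1)) * q ^ (k - 1) := pow_add _ _ _
    _ ≤ (2 ^ (k + 1) * X) ^ ((K - 1) * (K + 1)) * (K * Y ^ ((K - 1) * (K + 1))) :=
        Nat.mul_le_mul (Nat.pow_le_pow_left (by omega) _) hY
    _ = K * (2 ^ (k + 1) * (X * Y)) ^ ((K - 1) * (K + 1)) := by
        rw [mul_pow, mul_pow, mul_pow]; ring
    _ ≤ K * (2 ^ (k + 1) * m) ^ ((K - 1) * (K + 1)) :=
        Nat.mul_le_mul_left _ (Nat.pow_le_pow_left (Nat.mul_le_mul_left _ hXY) _)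

theorem four_pow_bound (K : ℕ) (hK : 1 ≤ K) : 9 * K ^ 2 ≤ 4 * 4 ^ (2 * K) := by
  have h1 : ∀ K : ℕ, 1 ≤ K → 3 * K ≤ 4 ^ K := by
    intro K hK
    induction K, hK using Nat.le_induction with
    | base => norm_num
    | succ n hn ih =>
      rw [pow_succ]
      omega
  have h2 := h1 K hK
  have h3 : (3 * K) ^ 2 ≤ (4 ^ K) ^ 2 := Nat.pow_le_pow_left h2 2
  have h4 : (4 ^ K) ^ 2 = 4 ^ (2 * K) := by rw [← pow_mul, mul_comm]
  rw [h4] at h3
  have h5 : (3 * K) ^ 2 = 9 * K ^ 2 := by ring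
  rw [h5] at h3
  omega

theorem m_bound_all {q k n K m : ℕ} (hq : q.Prime) (hcop : Nat.Coprime q n) (hq4 : q % 4 = 1)
    (hk : k + 1 = 2 * K) (hK : 3 ≤ K) (hKo : Odd K) (hn : Odd n) (hm0 : m ≠ 0)
    (hs : sigma 1 (n ^ 2) = q ^ k * m) (hW : sigma 1 (q ^ k) * m = 2 * n ^ 2) :
    q ^ ((K - 1) * (K + 1) + (k - 1)) ≤ K * (2 ^ (k + 1) * m) ^ ((K - 1) * (K + 1)) := by
  by_cases hX : 4 * q ^ 3 ≤ 9 * K ^ 2 * m ^ 2
  · have hq1 := hq.one_lt
    have h1 : q ^ 3 ≤ (2 ^ (k + 1) * m) ^ 2 := by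
      have h2 := four_pow_bound K (by omega)
      have h3 : (2 ^ (k + 1) * m) ^ 2 = 4 ^ (2 * K) * m ^ 2 := by
        rw [mul_pow, ← pow_mul, hk, mul_comm (2 * K) 2, pow_mul]
        norm_num
      rw [h3]
      have h4 : 4 * q ^ 3 ≤ 4 * (4 ^ (2 * K) * m ^ 2) := by
        calc 4 * q ^ 3 ≤ 9 * K ^ 2 * m ^ 2 := hX
          _ ≤ 4 * 4 ^ (2 * K) * m ^ 2 := Nat.mul_le_mul_right _ h2
          _ = 4 * (4 ^ (2 * K) * m ^ 2) := by ring
      omega
    obtain ⟨j, hj⟩ := hKo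
    obtain ⟨E2, hE2⟩ : 2 ∣ (K - 1) * (K + 1) := by
      refine Dvd.dvd.mul_right ?_ _
      exact ⟨j, by omega⟩
    rw [hE2, pow_mul (2 ^ (k + 1) * m)]
    have h5 : 2 * E2 + (k - 1) ≤ 3 * E2 := by
      have h6 : k - 1 ≤ E2 := by
        have h7 : k - 1 = 2 * (K - 1) := by omega
        have h8 : (K - 1) * 4 ≤ (K - 1) * (K + 1) := Nat.mul_le_mul_left _ (by omega)
        omega
      omega
    calc q ^ (2 * E2 + (k - 1)) ≤ q ^ (3 * E2) := Nat.pow_le_pow_right (by omega) h5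
      _ = (q ^ 3) ^ E2 := by rw [pow_mul]
      _ ≤ ((2 ^ (k + 1) * m) ^ 2) ^ E2 := Nat.pow_le_pow_left h1 _
      _ ≤ K * ((2 ^ (k + 1) * m) ^ 2) ^ E2 := Nat.le_mul_of_pos_left _ (by omega)
  · exact m_bound hq hcop hq4 hk hK hKo hn hm0 hs hW hX

/-- the main theorem -/
theorem main {q k n K : ℕ} (hodd : Odd (q ^ k * n ^ 2)) (hperf : Nat.Perfect (q ^ k * n ^ 2))
    (hq : q.Prime) (hcop : Nat.Coprime q n) (hq4 : q % 4 = 1) (hk : k + 1 = 2 * K) (hK : 3 ≤ K) (hKo : Odd K) :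
    q ^ ((k + 1) * ((K - 1) * (K + 1)) + (k - 1)) ≤ K * (2 ^ (k + 2) * n ^ 2) ^ ((K - 1) * (K + 1)) := by
  obtain ⟨m, hm0, hs, hW⟩ := setup hodd hperf hq hcop
  have hn : Odd n := by
    have := (Nat.odd_mul.1 hodd).2
    exact Nat.Odd.of_mul_left (by rwa [sq] at this)
  have h1 := m_bound_all hq hcop hq4 hk hK hKo hn hm0 hs hW
  have h2 : q ^ k * m ≤ 2 * n ^ 2 := by
    rw [← hW]
    exact Nat.mul_le_mul_right _ (le_sig (pow_ne_zero _ hq.ne_zero))
  calc q ^ ((k + 1) * ((K - 1) * (K + 1)) + (k - 1))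
      = (q ^ k) ^ ((K - 1) * (K + 1)) * q ^ ((K - 1) * (K + 1) + (k - 1)) := by
        rw [← pow_mul, ← pow_add]; congr 1; ring
    _ ≤ (q ^ k) ^ ((K - 1) * (K + 1)) * (K * (2 ^ (k + 1) * m) ^ ((K - 1) * (K + 1))) := Nat.mul_le_mul_left _ h1
    _ = K * (2 ^ (k + 1) * (q ^ k * m)) ^ ((K - 1) * (K + 1)) := by
        rw [mul_pow, mul_pow, mul_pow]; ring
    _ ≤ K * (2 ^ (k + 1) * (2 * n ^ 2)) ^ ((K - 1) * (K + 1)) :=
        Nat.mul_le_mul_left _ (Nat.pow_le_pow_left (Nat.mul_le_mul_left _ h2) _)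
    _ = K * (2 ^ (k + 2) * n ^ 2) ^ ((K - 1) * (K + 1)) := by
        congr 2; ring

end Pool.Agent.H76D
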